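import Pool.Agent.W988.WD.Defs2
import Pool.Agent.W85.WDX.ABS

/-!
# WD-COV: in a finite factor finitely many unitary conjugates of a nonzero projection cover `1`
-/

set_option autoImplicit false
set_option maxHeartbeats 4000000
open scoped InnerProductSpace Topology
open Filter

namespace Pool.Agent.W179.WD

open Pool.Agent.W988.WD
open Pool.Agent.W85.WDX (pi_mul pi_star st Sys sys_max)

section

variable {H : Type} [NormedAddCommGroup H] [InnerProductSpace ℂ H] [CompleteSpace H]

theorem prj_one_sub {e : H →L[ℂ] H} (he : Prj e) : Prj (1 - e) := by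
  refine ⟨by rw [star_sub, star_one, he.1], ?_⟩
  have : (1 - e) * (1 - e) = 1 - e - e + e * e := by noncomm_ring
  rw [this, he.2]; abel

/-- in a finite factor partial isometries extend to unitaries -/
theorem unit_ext (h2 : S_CMP) {N : VonNeumannAlgebra H} (hN : Factor N) (hfin : ¬ Infin N)
    {a e f : H →L[ℂ] H} (haN : a ∈ N) (he : Prj e) (hf : Prj f) (hae : star a * a = e)
    (haf : a * star a = f) :
    ∃ u ∈ N, star u * u = 1 ∧ u * star u = 1 ∧ u * e = a := by
  have heN : e ∈ N := hae ▸ mul_mem (star_mem haN) haN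
  have hfN : f ∈ N := haf ▸ mul_mem haN (star_mem haN)
  have hiso : ∀ w ∈ N, star w * w = 1 → w * star w = 1 := by
    intro w hw h
    by_contra h'
    exact hfin ⟨w, hw, h, h'⟩
  have hae1 : a * e = a := pi_mul he hae
  have hfa : f * a = a := by rw [← haf, mul_assoc, hae, hae1]
  have haf1 : star a * f = star a := st hf.1 hfa
  have h1e := prj_one_sub he
  have h1f := prj_one_sub hf
  rcases h2 H N hN (1 - e) (sub_mem (one_mem N) heN) (1 - f) (sub_mem (one_mem N) hfN) h1e h1f with
    ⟨v, hvN, hv1, hv2⟩ | ⟨v, hvN, hv1, hv2⟩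
  · have hav : star a * v = 0 := by
      calc star a * v = star a * f * ((1 - f) * v) := by rw [haf1, hv2]
        _ = star a * (f - f * f) * v := by noncomm_ring
        _ = 0 := by rw [hf.2, sub_self]; simp
    have hva : star v * a = 0 := by
      have := congrArg star hav
      rwa [star_mul, star_star, star_zero] at this
    have hve : v * e = 0 := by
      have h3 := pi_mul h1e hv1
      calc v * e = v * (1 - e) * e := by rw [h3]
        _ = v * (e - e * e) := by noncomm_ring
        _ = 0 := by rw [he.2, sub_self]; simp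
    have hw : star (a + v) * (a + v) = 1 := by
      rw [star_add]
      have : (star a + star v) * (a + v) = star a * a + star a * v + star v * a + star v * v := by
        noncomm_ring
      rw [this, hae, hav, hva, hv1]; abel
    refine ⟨a + v, add_mem haN hvN, hw, hiso _ (add_mem haN hvN) hw, ?_⟩
    rw [add_mul, hae1, hve, add_zero]
  · have hav : a * v = 0 := by
      calc a * v = a * e * ((1 - e) * v) := by rw [hae1, hv2]
        _ = a * (e - e * e) * v := by noncomm_ring
        _ = 0 := by rw [he.2, sub_self]; simp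
    have hva : star v * star a = 0 := by
      have := congrArg star hav
      rwa [star_mul, star_zero] at this
    have hve : star v * e = 0 := by
      have h3 := st h1e.1 hv2
      calc star v * e = star v * (1 - e) * e := by rw [h3]
        _ = star v * (e - e * e) := by noncomm_ring
        _ = 0 := by rw [he.2, sub_self]; simp
    have hwN : star a + v ∈ N := add_mem (star_mem haN) hvN
    have hw : star (star a + v) * (star a + v) = 1 := by
      rw [star_add, star_star]
      have : (a + star v) * (star a + v) = a * star a + a * v + star v * star a + star v * v := by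
        noncomm_ring
      rw [this, haf, hav, hva, hv1]; abel
    have hw' := hiso _ hwN hw
    refine ⟨a + star v, add_mem haN (star_mem hvN), ?_, ?_, ?_⟩
    · rw [star_add, star_star] at hw' ⊢
      exact hw'
    · rw [star_add, star_star] at hw ⊢
      exact hw
    · rw [add_mul, hae1, hve, add_zero]

/-- `N` is infinite as soon as there is an infinite sequence of orthogonal copies of a nonzero
projection -/
theorem inf_of_seq (h1 : S_ZSUM) {N : VonNeumannAlgebra H} {p : H →L[ℂ] H} (hPp : Prj p)
    (hp0 : p ≠ 0) (w : ℕ → (H →L[ℂ] H)) (hwN : ∀ n, w n ∈ N) (hwp : ∀ n, star (w n) * w n = p)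
    (hwo : ∀ m n, m ≠ n → star (w m) * w n = 0) : Infin N := by
  have hsr : ∀ n, w n * p = w n := fun n => pi_mul hPp (hwp n)
  have hss : ∀ n, w n * star (w n) * (w n * star (w n)) = w n * star (w n) := by
    intro n
    calc w n * star (w n) * (w n * star (w n)) = w n * (star (w n) * w n) * star (w n) := by
          noncomm_ring
      _ = w n * star (w n) := by rw [hwp, hsr]
  have hsso : ∀ m n, m ≠ n → w m * star (w m) * (w n * star (w n)) = 0 := by
    intro m n hne
    calc w m * star (w m) * (w n * star (w n)) = w m * (star (w m) * w n) * star (w n) := by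
          noncomm_ring
      _ = 0 := by rw [hwo m n hne]; simp
  obtain ⟨T, hTN, hT0, hT1, hT2, hT3, hT4⟩ := h1 H N ℕ (fun n => w n * star (w n))
    (fun n => mul_mem (hwN n) (star_mem (hwN n)))
    (fun n => by
      simp only [star_mul, star_star]
      rw [hss n, hss n])
    (fun m n hne => by
      simp only [star_mul, star_star]
      exact hsso m n hne)
    (fun m n hne => by
      simp only [star_mul, star_star]
      exact hsso m n hne)
  simp only [star_mul, star_star] at hT1 hT2 hT3 hT4
  have hT1' : ∀ n, T * (w n * star (w n)) = w n * star (w n) := by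
    intro n
    have := hT1 n
    rwa [hss n] at this
  have hT2' : ∀ n, w n * star (w n) * T = w n * star (w n) := by
    intro n
    have := hT2 n
    rwa [hss n] at this
  have hTT : T * T = T := by
    ext ξ
    have h3 := hT3 (ξ - T ξ) (fun n => by
      have := congrArg (fun X : H →L[ℂ] H => X ξ) (hT2' n)
      simp only [mul_apply_eq_comp, map_sub] at this ⊢
      rw [this, sub_self])
    rw [map_sub, sub_eq_zero] at h3
    exact h3.symm
  have hTs : T * star T = T := by
    ext ξ
    have h3 := hT3 (ξ - star T ξ) (fun n => by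
      have h4 := congrArg star (hT1' n)
      simp only [star_mul, star_star] at h4
      have := congrArg (fun X : H →L[ℂ] H => X ξ) h4
      simp only [mul_apply_eq_comp, map_sub] at this ⊢
      rw [this, sub_self])
    rw [map_sub, sub_eq_zero] at h3
    exact h3.symm
  have hTsa : star T = T := by
    have := congrArg star hTs
    rw [star_mul, star_star, hTs] at this
    exact this.symm
  have hPT : Prj T := ⟨hTsa, hTT⟩
  have hTS : ∀ n, T * w n = w n := by
    intro n
    have h3 : w n = w n * star (w n) * w n := by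
      rw [mul_assoc, hwp, hsr]
    calc T * w n = T * (w n * star (w n) * w n) := by rw [← h3]
      _ = (T * (w n * star (w n))) * w n := by noncomm_ring
      _ = w n * star (w n) * w n := by rw [hT1' n]
      _ = w n := h3.symm
  obtain ⟨t, ht⟩ : ∃ t, t = 1 - T := ⟨_, rfl⟩
  have hPt : Prj t := ht ▸ prj_one_sub hPT
  have htN : t ∈ N := ht ▸ sub_mem (one_mem N) hTN
  have htw : ∀ n, t * w n = 0 := by
    intro n
    rw [ht, sub_mul, one_mul, hTS n, sub_self]
  have hwt : ∀ n, star (w n) * t = 0 := by
    intro n
    have := congrArg star (htw n)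
    rwa [star_mul, hPt.1, star_zero] at this
  -- the family
  obtain ⟨u, hu⟩ : ∃ u : Option ℕ → (H →L[ℂ] H), u = fun i => match i with
    | none => t
    | some n => w (n + 1) * star (w n) := ⟨_, rfl⟩
  have hu0 : u none = t := by rw [hu]
  have hus : ∀ n : ℕ, u (some n) = w (n + 1) * star (w n) := fun s => by rw [hu]
  have hini0 : star (u none) * u none = t := by rw [hu0, hPt.1, hPt.2]
  have hinis : ∀ n : ℕ, star (u (some n)) * u (some n) = w n * star (w n) := by
    intro n
    rw [hus, star_mul, star_star]
    calc w n * star (w (n + 1)) * (w (n + 1) * star (w n))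
        = w n * (star (w (n + 1)) * w (n + 1)) * star (w n) := by noncomm_ring
      _ = _ := by rw [hwp, hsr]
  have huN : ∀ i, u i ∈ N := by
    intro i
    cases i with
    | none => rw [hu0]; exact htN
    | some n => rw [hus]; exact mul_mem (hwN _) (star_mem (hwN _))
  have hPs : ∀ n, Prj (w n * star (w n)) := fun n => ⟨by rw [star_mul, star_star], hss n⟩
  have hupi : ∀ i, u i * star (u i) * u i = u i := by
    intro i
    cases i with
    | none => rw [mul_assoc, hini0]; exact pi_mul hPt hini0
    | some n => rw [mul_assoc, hinis]; exact pi_mul (hPs n) (hinis n)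
  have huo : ∀ i j, i ≠ j → star (u i) * u j = 0 := by
    intro i j hij
    cases i with
    | none =>
      cases j with
      | none => exact absurd rfl hij
      | some n => rw [hu0, hus, hPt.1, ← mul_assoc, htw, zero_mul]
    | some n =>
      cases j with
      | none => rw [hu0, hus, star_mul, star_star, mul_assoc, hwt, mul_zero]
      | some m =>
        rw [hus, hus, star_mul, star_star]
        have hne : n + 1 ≠ m + 1 := fun h => hij (by rw [Nat.succ.inj h])
        calc w n * star (w (n + 1)) * (w (m + 1) * star (w m))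
            = w n * (star (w (n + 1)) * w (m + 1)) * star (w m) := by noncomm_ring
          _ = 0 := by rw [hwo _ _ hne]; simp
  have huo' : ∀ i j, i ≠ j → u i * star (u j) = 0 := by
    intro i j hij
    cases i with
    | none =>
      cases j with
      | none => exact absurd rfl hij
      | some n => rw [hu0, hus, star_mul, star_star, ← mul_assoc, htw, zero_mul]
    | some n =>
      cases j with
      | none => rw [hu0, hus, hPt.1, mul_assoc, hwt, mul_zero]
      | some m =>
        rw [hus, hus, star_mul, star_star]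
        have hne : n ≠ m := fun h => hij (by rw [h])
        calc w (n + 1) * star (w n) * (w m * star (w (m + 1)))
            = w (n + 1) * (star (w n) * w m) * star (w (m + 1)) := by noncomm_ring
          _ = 0 := by rw [hwo _ _ hne]; simp
  obtain ⟨V, hVN, hV0, hV1, hV2, hV3, hV4⟩ := h1 H N (Option ℕ) u huN hupi huo huo'
  obtain ⟨Q, hQ⟩ : ∃ Q, Q = star V * V := ⟨_, rfl⟩
  have hQsa : star Q = Q := by rw [hQ, star_mul, star_star]
  have hQu : ∀ i, Q * (star (u i) * u i) = star (u i) * u i := by
    intro i
    have h3 := congrArg star (hV2 i)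
    simp only [star_mul, star_star] at h3
    calc Q * (star (u i) * u i) = star V * (V * (star (u i) * u i)) := by rw [hQ, mul_assoc]
      _ = star V * u i := by rw [hV1 i]
      _ = star V * (u i * star (u i) * u i) := by rw [hupi i]
      _ = star V * (u i * star (u i)) * u i := by noncomm_ring
      _ = star (u i) * u i := by rw [h3]
  have hQt : Q * t = t := by
    have := hQu none
    rwa [hini0] at this
  have hQs : ∀ n, w n * star (w n) * Q = w n * star (w n) := by
    intro n
    have h3 := hQu (some n)
    rw [hinis] at h3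
    have := congrArg star h3
    simpa [star_mul, hQsa] using this
  have hTQ : T * Q = T := by
    ext ξ
    have h4 := hT3 (ξ - Q ξ) (fun n => by
      have := congrArg (fun X : H →L[ℂ] H => X ξ) (hQs n)
      simp only [mul_apply_eq_comp, map_sub] at this ⊢
      rw [this, sub_self])
    rw [map_sub, sub_eq_zero] at h4
    exact h4.symm
  have hQT : Q * T = T := by
    have := congrArg star hTQ
    rwa [star_mul, hTsa, hQsa] at this
  have hQ1 : Q = 1 := by
    calc Q = Q * t + Q * T := by rw [← mul_add, ht, sub_add_cancel, mul_one]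
      _ = t + T := by rw [hQt, hQT]
      _ = 1 := by rw [ht, sub_add_cancel]
  refine ⟨V, hVN, by rw [← hQ, hQ1], ?_⟩
  intro hVV
  have hVw : star V * w 0 = 0 := by
    ext η
    have h4 := hV4 (w 0 η) (fun i => by
      cases i with
      | none =>
        rw [hu0, hPt.1]
        have := congrArg (fun X : H →L[ℂ] H => X η) (htw 0)
        simpa only [mul_apply_eq_comp, zero_apply] using this
      | some n =>
        have h5 : star (u (some n)) * w 0 = 0 := by
          rw [hus, star_mul, star_star, mul_assoc, hwo _ _ (Nat.succ_ne_zero n), mul_zero]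
        have := congrArg (fun X : H →L[ℂ] H => X η) h5
        simpa only [mul_apply_eq_comp, zero_apply] using this)
    simpa only [mul_apply_eq_comp, zero_apply] using h4
  have hw0 : w 0 = 0 := by
    calc w 0 = (V * star V) * w 0 := by rw [hVV, one_mul]
      _ = V * (star V * w 0) := by rw [mul_assoc]
      _ = 0 := by rw [hVw, mul_zero]
  apply hp0
  rw [← hwp 0, hw0, mul_zero]

theorem re_prj {q : H →L[ℂ] H} (hq : Prj q) (ξ : H) : 0 ≤ (⟪ξ, q ξ⟫_ℂ).re := by
  have h1 : ⟪ξ, q ξ⟫_ℂ = ⟪q ξ, q ξ⟫_ℂ := by
    have h2 : q ξ = q (q ξ) := by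
      have := congrArg (fun X : H →L[ℂ] H => X ξ) hq.2
      simpa only [mul_apply_eq_comp] using this.symm
    calc ⟪ξ, q ξ⟫_ℂ = ⟪ξ, q (q ξ)⟫_ℂ := by rw [← h2]
      _ = ⟪star q ξ, q ξ⟫_ℂ := by
        rw [ContinuousLinearMap.star_eq_adjoint, ContinuousLinearMap.adjoint_inner_left]
      _ = _ := by rw [hq.1]
  rw [h1]
  exact inner_self_nonneg (𝕜 := ℂ)

end

theorem p_COV (h1 : S_ZSUM) (h2 : S_CMP) : S_COV := by
  intro H _ _ _ N hN hfin p hp hPp hp0
  classical
  obtain ⟨J, hJ, hmax⟩ := sys_max N 1 p
  have hJfin : J.Finite := by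
    by_contra hinf
    have hinf' : J.Infinite := hinf
    let g := hinf'.natEmbedding J
    refine hfin (inf_of_seq h1 hPp hp0 (fun n => (g n : H →L[ℂ] H)) (fun n => (hJ.1 _ (g n).2).1)
      (fun n => (hJ.1 _ (g n).2).2.1) ?_)
    intro m n hmn
    exact hJ.2 _ (g m).2 _ (g n).2 (fun h => hmn (g.injective (Subtype.ext h)))
  have : Fintype J := hJfin.fintype
  have hsr : ∀ s ∈ J, s * p = s := fun s hs => pi_mul hPp (hJ.1 s hs).2.1
  have hss : ∀ s ∈ J, s * star s * (s * star s) = s * star s := by
    intro s hs
    calc s * star s * (s * star s) = s * (star s * s) * star s := by noncomm_ring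
      _ = s * star s := by rw [(hJ.1 s hs).2.1, hsr s hs]
  have hPs : ∀ s ∈ J, Prj (s * star s) := fun s hs => ⟨by rw [star_mul, star_star], hss s hs⟩
  -- the sum of the copies
  obtain ⟨T, hT⟩ : ∃ T, T = ∑ s : J, (s : H →L[ℂ] H) * star (s : H →L[ℂ] H) := ⟨_, rfl⟩
  have hTN : T ∈ N := hT ▸ sum_mem fun s _ => mul_mem (hJ.1 s s.2).1 (star_mem (hJ.1 s s.2).1)
  have hTsa : star T = T := by
    rw [hT, star_sum]
    exact Finset.sum_congr rfl fun s _ => by rw [star_mul, star_star]
  have hTs : ∀ s : J, T * (s : H →L[ℂ] H) = s := by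
    intro s
    rw [hT, Finset.sum_mul, Finset.sum_eq_single s]
    · rw [mul_assoc, (hJ.1 s s.2).2.1, hsr s s.2]
    · intro s' _ hne
      rw [mul_assoc, hJ.2 s' s'.2 s s.2 (fun h => hne (Subtype.ext h)), mul_zero]
    · intro h
      exact absurd (Finset.mem_univ s) h
  have hTT : T * T = T := by
    conv_lhs => rw [hT, ← hT]
    nth_rewrite 2 [hT]
    rw [Finset.mul_sum, hT]
    apply Finset.sum_congr rfl
    intro s _
    rw [← hT, ← mul_assoc, hTs s]
  obtain ⟨t, ht⟩ : ∃ t, t = 1 - T := ⟨_, rfl⟩
  have hPt : Prj t := ht ▸ prj_one_sub ⟨hTsa, hTT⟩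
  have htN : t ∈ N := ht ▸ sub_mem (one_mem N) hTN
  have hts : ∀ s ∈ J, t * s = 0 := by
    intro s hs
    rw [ht, sub_mul, one_mul, hTs ⟨s, hs⟩, sub_self]
  have hst : ∀ s ∈ J, star s * t = 0 := by
    intro s hs
    have := congrArg star (hts s hs)
    rwa [star_mul, hPt.1, star_zero] at this
  -- the remaining part
  obtain ⟨v0, hv0N, hv0, hpv0⟩ : ∃ v ∈ N, star v * v = t ∧ p * v = v := by
    rcases h2 H N hN p hp t htN hPp hPt with h3 | h3
    · exfalso
      obtain ⟨v, hvN, hv1, hv2⟩ := h3
      have hort : ∀ s ∈ J, star s * v = 0 := by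
        intro s hs
        calc star s * v = star s * (t * v) := by rw [hv2]
          _ = (star s * t) * v := by noncomm_ring
          _ = 0 := by rw [hst s hs, zero_mul]
      have hvJ : v ∉ J := by
        intro hv
        have := hort v hv
        rw [hv1] at this
        exact hp0 this
      have hsys : Sys N 1 p (insert v J) := by
        refine ⟨?_, ?_⟩
        · intro s hs
          rcases Set.mem_insert_iff.1 hs with rfl | hs
          · exact ⟨hvN, hv1, one_mul _⟩
          · exact hJ.1 s hs
        · intro s hs s' hs' hne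
          rcases Set.mem_insert_iff.1 hs with hsv | hsJ
          · rcases Set.mem_insert_iff.1 hs' with hsv' | hsJ'
            · exact absurd (hsv.trans hsv'.symm) hne
            · have := congrArg star (hort s' hsJ')
              rw [star_mul, star_star, star_zero] at this
              rw [hsv]; exact this
          · rcases Set.mem_insert_iff.1 hs' with hsv' | hsJ'
            · rw [hsv']; exact hort s hsJ
            · exact hJ.2 s hsJ s' hsJ' hne
      have h4 := hmax _ hsys (Set.subset_insert v J)
      exact hvJ (h4 ▸ Set.mem_insert v J)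
    · exact h3
  have hv0t : v0 * t = v0 := pi_mul hPt hv0
  -- the projection `e = v0 star v0 ≤ p`
  obtain ⟨e, he⟩ : ∃ e, e = v0 * star v0 := ⟨_, rfl⟩
  have hPe : Prj e := by
    refine ⟨by rw [he, star_mul, star_star], ?_⟩
    rw [he]
    calc v0 * star v0 * (v0 * star v0) = v0 * (star v0 * v0) * star v0 := by noncomm_ring
      _ = v0 * star v0 := by rw [hv0, hv0t]
  have hpe : p * e = e := by rw [he, ← mul_assoc, hpv0]
  have hep : e * p = e := by
    have := congrArg star hpe
    rwa [star_mul, hPp.1, hPe.1] at this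
  have hPpe : Prj (p - e) := by
    refine ⟨by rw [star_sub, hPp.1, hPe.1], ?_⟩
    have : (p - e) * (p - e) = p * p - p * e - e * p + e * e := by noncomm_ring
    rw [this, hPp.2, hpe, hep, hPe.2]; abel
  -- unitaries
  obtain ⟨ut, hutN, hut1, hut2, hut3⟩ := unit_ext (a := star v0) (e := e) (f := t) h2 hN hfin
    (star_mem hv0N) hPe hPt (by rw [star_star, he]) (by rw [star_star, hv0])
  have hus : ∀ s : J, ∃ u ∈ N, star u * u = 1 ∧ u * star u = 1 ∧ u * p = (s : H →L[ℂ] H) :=
    fun s => unit_ext (a := (s : H →L[ℂ] H)) (e := p) (f := (s : H →L[ℂ] H) * star (s : H →L[ℂ] H))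
      h2 hN hfin (hJ.1 s s.2).1 hPp (hPs s s.2) (hJ.1 s s.2).2.1 rfl
  choose us husN hus1 hus2 hus3 using hus
  have hconj : ∀ s : J, us s * p * star (us s) = (s : H →L[ℂ] H) * star (s : H →L[ℂ] H) := by
    intro s
    have h3 : p * star (us s) = star (s : H →L[ℂ] H) := by
      have := congrArg star (hus3 s)
      rwa [star_mul, hPp.1] at this
    calc us s * p * star (us s) = us s * (p * p) * star (us s) := by rw [hPp.2]
      _ = (us s * p) * (p * star (us s)) := by noncomm_ring
      _ = _ := by rw [hus3, h3]
  have hconjt : ut * e * star ut = t := by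
    have h3 : e * star ut = v0 := by
      have := congrArg star hut3
      rwa [star_mul, hPe.1, star_star] at this
    calc ut * e * star ut = ut * (e * e) * star ut := by rw [hPe.2]
      _ = (ut * e) * (e * star ut) := by noncomm_ring
      _ = _ := by rw [hut3, h3, hv0]
  obtain ⟨u, hu⟩ : ∃ u : Option J → (H →L[ℂ] H), u = fun i => match i with
    | none => ut
    | some s => us s := ⟨_, rfl⟩
  have hall : ∀ o, u o ∈ unitary (H →L[ℂ] H) ∧ u o ∈ N := by
    intro o
    rw [hu]
    cases o with
    | none => exact ⟨Unitary.mem_iff.2 ⟨hut1, hut2⟩, hutN⟩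
    | some s => exact ⟨Unitary.mem_iff.2 ⟨hus1 s, hus2 s⟩, husN s⟩
  refine ⟨Fintype.card (Option J), fun i => u ((Fintype.equivFin (Option J)).symm i),
    fun i => hall _, ?_⟩
  · intro ξ
    rw [Equiv.sum_comp (Fintype.equivFin (Option J)).symm
      (fun o => (⟪ξ, (u o * p * star (u o)) ξ⟫_ℂ).re), Fintype.sum_option]
    have hu0 : u none = ut := by rw [hu]
    have hu1 : ∀ s, u (some s) = us s := fun s => by rw [hu]
    simp only [hu0, hu1, hconj]
    have e1 : ut * p * star ut = t + ut * (p - e) * star ut := by
      rw [← hconjt]; noncomm_ring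
    have e2 : 0 ≤ (⟪ξ, (ut * (p - e) * star ut) ξ⟫_ℂ).re := by
      have h3 : ⟪ξ, (ut * (p - e) * star ut) ξ⟫_ℂ = ⟪star ut ξ, (p - e) (star ut ξ)⟫_ℂ := by
        rw [mul_assoc, mul_apply_eq_comp, mul_apply_eq_comp, ContinuousLinearMap.star_eq_adjoint,
          ContinuousLinearMap.adjoint_inner_left]
      rw [h3]
      exact re_prj hPpe _
    have e3 : ‖ξ‖ ^ 2 = (⟪ξ, (t + T) ξ⟫_ℂ).re := by
      rw [ht, sub_add_cancel]
      have : ⟪ξ, (1 : H →L[ℂ] H) ξ⟫_ℂ = ((‖ξ‖ ^ 2 : ℝ) : ℂ) := by
        rw [one_apply_eq_self, inner_self_eq_norm_sq_to_K]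
        push_cast
        rfl
      rw [this, Complex.ofReal_re]
    have e4 : (⟪ξ, T ξ⟫_ℂ).re = ∑ s : J, (⟪ξ, ((s : H →L[ℂ] H) * star (s : H →L[ℂ] H)) ξ⟫_ℂ).re := by
      rw [hT, sum_apply, inner_sum, Complex.re_sum]
    rw [e3, e1, add_apply, add_apply, inner_add_right,
      inner_add_right, Complex.add_re, Complex.add_re, e4]
    linarith

end Pool.Agent.W179.WD
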